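import Mathlib
import Pool.Agent.Helper92.PO.Stmts

namespace Pool.Agent.Helper92.PO

theorem acs_sum (f : ℕ → ℕ) (k : ℕ) :
    ((List.range k).map f).sum = ∑ i ∈ Finset.range k, f i := by
  induction k with
  | zero => simp
  | succ k ih => rw [List.range_succ, List.map_append, List.sum_append, ih,
      Finset.sum_range_succ]; simp

theorem acs_mod (a w t : ℕ) (h : t < w) : (a * w + t) % w = t := by
  rw [Nat.add_comm, Nat.add_mul_mod_self_right, Nat.mod_eq_of_lt h]

theorem acs_last (F : ℕ → ℕ) (w : ℕ) (hw : 0 < w) :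
    ((List.range w).map F).getLastD 0 = F (w - 1) := by
  obtain ⟨w', rfl⟩ : ∃ w', w = w' + 1 := ⟨w - 1, by omega⟩
  rw [List.range_succ, List.map_append]
  simp

theorem acs_cnt (n : ℕ) (g : ℕ → Lab) (t : ℕ) (ht : t < wd n) :
    cntU (wd n) g (KK n * wd n) t = cnt n (fun k u => g (k * wd n + u)) t := by
  have hw : 0 < wd n := by omega
  unfold cntU cnt
  have h1 : ((List.range (KK n * wd n)).filter fun i' =>
      decide (i' % wd n = t) && !decide ((g i').1 = 0)).length =
      ((Finset.range (KK n * wd n)).filter fun i' => i' % wd n = t ∧ (g i').1 ≠ 0).card := by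
    rw [← List.toFinset_card_of_nodup (List.Nodup.filter _ List.nodup_range)]
    congr 1
    ext i
    simp
  rw [h1]
  refine Finset.card_nbij' (fun i => i / wd n) (fun k => k * wd n + t) ?_ ?_ ?_ ?_
  · intro i hi
    rw [Finset.mem_coe, Finset.mem_filter, Finset.mem_range] at hi
    rw [Finset.mem_coe, Finset.mem_filter, Finset.mem_range]
    obtain ⟨h2, h3, h4⟩ := hi
    refine ⟨(Nat.div_lt_iff_lt_mul hw).mpr h2, ?_⟩
    have h5 : i / wd n * wd n + t = i := by
      rw [← h3]; exact Nat.div_add_mod' i (wd n)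
    show (g (i / wd n * wd n + t)).1 ≠ 0
    rw [h5]; exact h4
  · intro k hk
    rw [Finset.mem_coe, Finset.mem_filter, Finset.mem_range] at hk
    rw [Finset.mem_coe, Finset.mem_filter, Finset.mem_range]
    refine ⟨?_, ?_, hk.2⟩
    · calc k * wd n + t < k * wd n + wd n := by omega
        _ = (k + 1) * wd n := by ring
        _ ≤ KK n * wd n := Nat.mul_le_mul_right _ hk.1
    · show (k * wd n + t) % wd n = t
      rw [acs_mod _ _ _ ht]
  · intro i hi
    rw [Finset.mem_coe, Finset.mem_filter, Finset.mem_range] at hi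
    obtain ⟨h2, h3, h4⟩ := hi
    show i / wd n * wd n + t = i
    rw [← h3]; exact Nat.div_add_mod' i (wd n)
  · intro k hk
    show (k * wd n + t) / wd n = k
    rw [Nat.add_comm, Nat.add_mul_div_right _ _ hw, Nat.div_eq_of_lt ht, Nat.zero_add]

theorem st_ACS (_h1 : ST_STA) : ST_ACS := by
  intro n σ g hσ
  have hw : 0 < wd n := by omega
  have hl : (stAt (wd n) g (KK n * wd n)).2.map Prod.snd =
      (List.range (wd n)).map (fun t => cnt n (fun k u => g (k * wd n + u)) t) := by
    unfold stAt
    rw [List.map_map]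
    apply List.map_congr_left
    intro t ht
    rw [List.mem_range] at ht
    show cntU (wd n) g (KK n * wd n) ((KK n * wd n + t) % wd n) = _
    rw [acs_mod _ _ _ ht, acs_cnt n g t ht]
  unfold accept Cnt
  rw [hl, Bool.and_eq_true, Bool.and_eq_true, decide_eq_true_eq, decide_eq_true_eq, acs_sum]
  have hlast := acs_last (fun t => cnt n (fun k u => g (k * wd n + u)) t) (wd n) hw
  rw [hlast]
  have hall : (((List.range (wd n)).map
      (fun t => cnt n (fun k u => g (k * wd n + u)) t)).take σ).all
        (fun c => decide (Nat.sqrt n < c)) = true ↔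
      ∀ u < σ, Nat.sqrt n < cnt n (fun k u => g (k * wd n + u)) u := by
    rw [← List.map_take, List.take_range, Nat.min_eq_left hσ.le, List.all_eq_true]
    simp
  rw [hall]

end Pool.Agent.Helper92.PO
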