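import Mathlib
import Pool.Agent.Helper92.PO.Stmts

namespace Pool.Agent.Helper92.PO

theorem rex_labs (n : ℕ) (v : Lab) (h : v ∈ labs n) (h0 : v.1 = 0) : v = (0, 0) := by
  unfold labs at h
  rw [List.mem_cons, List.mem_cons, List.mem_flatMap] at h
  rcases h with h | h | ⟨d, _, h⟩
  · exact h
  · rw [h] at h0; exact absurd h0 (by decide)
  · simp only [List.mem_cons, List.not_mem_nil, or_false] at h
    rcases h with h | h | h | h <;> rw [h] at h0 <;> exact absurd h0 (by simp)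

theorem st_REX (hB : ST_BOX) : ST_REX := by
  refine ⟨?_, ?_⟩
  · intro n σ f k hk u hu
    have hw : 0 < wd n := by omega
    have hL : 0 < LL n := by unfold LL; omega
    have hkL : k / LL n < JJ n := by
      rw [Nat.div_lt_iff_lt_mul hL]
      exact hk
    have hX : k / LL n * wd n + u < JJ n * wd n := by
      calc k / LL n * wd n + u < k / LL n * wd n + wd n := by omega
        _ = (k / LL n + 1) * wd n := by ring
        _ ≤ JJ n * wd n := Nat.mul_le_mul_right _ hkL
    have hY : k % LL n < LL n := Nat.mod_lt _ hL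
    have e1 : (((k / LL n * wd n + u : ℕ) : ℤ) - σ - 1) + σ + 1 =
      ((k / LL n * wd n + u : ℕ) : ℤ) := by ring
    have e2 : (((k % LL n : ℕ) : ℤ) - n - 1) + n + 1 = ((k % LL n : ℕ) : ℤ) := by ring
    show ext n σ f ((((k / LL n) * wd n + u : ℕ) : ℤ) - σ - 1, ((k % LL n : ℕ) : ℤ) - n - 1) = _
    unfold ext
    show (if 0 ≤ (((k / LL n * wd n + u : ℕ) : ℤ) - σ - 1) + σ + 1 ∧
      (((k / LL n * wd n + u : ℕ) : ℤ) - σ - 1) + σ + 1 < (JJ n * wd n : ℕ) ∧
      0 ≤ (((k % LL n : ℕ) : ℤ) - n - 1) + n + 1 ∧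
      (((k % LL n : ℕ) : ℤ) - n - 1) + n + 1 < (LL n : ℕ)
      then f ((((((k / LL n * wd n + u : ℕ) : ℤ) - σ - 1) + σ + 1).toNat / wd n) * LL n +
        ((((k % LL n : ℕ) : ℤ) - n - 1) + n + 1).toNat)
        (((((k / LL n * wd n + u : ℕ) : ℤ) - σ - 1) + σ + 1).toNat % wd n) else (0, 0)) = _
    rw [e1, e2, if_pos ⟨Int.natCast_nonneg _, by exact_mod_cast hX, Int.natCast_nonneg _,
      by exact_mod_cast hY⟩, Int.toNat_natCast, Int.toNat_natCast]
    have e3 : (k / LL n * wd n + u) / wd n = k / LL n := by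
      rw [Nat.add_comm, Nat.add_mul_div_right _ _ hw, Nat.div_eq_of_lt hu, Nat.zero_add]
    have e4 : (k / LL n * wd n + u) % wd n = u := by
      rw [Nat.add_comm, Nat.add_mul_mod_self_right, Nat.mod_eq_of_lt hu]
    rw [e3, e4, Nat.div_add_mod']
  · intro n σ P c hσ hP hc
    have hw : 0 < wd n := by omega
    have hL : 0 < LL n := by unfold LL; omega
    obtain ⟨hc1, hc2, _, _, _⟩ := hc
    funext a
    unfold ext
    by_cases h : 0 ≤ a.1 + σ + 1 ∧ a.1 + σ + 1 < (JJ n * wd n : ℕ) ∧ 0 ≤ a.2 + n + 1 ∧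
        a.2 + n + 1 < (LL n : ℕ)
    · rw [if_pos h]
      obtain ⟨h1, h2, h3, h4⟩ := h
      obtain ⟨X, hX⟩ := Int.eq_ofNat_of_zero_le h1
      obtain ⟨Y, hY⟩ := Int.eq_ofNat_of_zero_le h3
      have hYL : Y < LL n := by
        rw [hY] at h4; exact_mod_cast h4
      rw [hX, hY]
      show res n σ c ((((X : ℕ) : ℤ).toNat / wd n) * LL n + ((Y : ℕ) : ℤ).toNat)
        (((X : ℕ) : ℤ).toNat % wd n) = c a
      rw [Int.toNat_natCast, Int.toNat_natCast]
      unfold res
      have e1 : (X / wd n * LL n + Y) / LL n = X / wd n := by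
        rw [Nat.add_comm, Nat.add_mul_div_right _ _ hL, Nat.div_eq_of_lt hYL, Nat.zero_add]
      have e2 : (X / wd n * LL n + Y) % LL n = Y := by
        rw [Nat.add_comm, Nat.add_mul_mod_self_right, Nat.mod_eq_of_lt hYL]
      rw [e1, e2, Nat.div_add_mod']
      congr 1
      apply Prod.ext
      · show (X : ℤ) - σ - 1 = a.1
        have : a.1 + σ + 1 = (X : ℤ) := hX
        linarith
      · show (Y : ℤ) - n - 1 = a.2
        have : a.2 + n + 1 = (Y : ℤ) := hY
        linarith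
    · rw [if_neg h]
      symm
      apply rex_labs n _ (hc2 a)
      by_contra h0
      have ha : a ∈ P := (hc1 a).mpr h0
      obtain ⟨b1, b2, b3, b4⟩ := hB n P hP a ha
      apply h
      have hJ : ((JJ n * wd n : ℕ) : ℤ) = ((n : ℤ) + 2) * (wd n : ℤ) := by
        unfold JJ; push_cast; ring
      have hL' : ((LL n : ℕ) : ℤ) = 2 * (n : ℤ) + 2 := by
        unfold LL; push_cast; ring
      have hσ' : (σ : ℤ) < (wd n : ℤ) := by exact_mod_cast hσ
      have hw' : (1 : ℤ) ≤ (wd n : ℤ) := by exact_mod_cast hw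
      have hn : (0 : ℤ) ≤ (n : ℤ) := Int.natCast_nonneg _
      have hσ0 : (0 : ℤ) ≤ (σ : ℤ) := Int.natCast_nonneg _
      refine ⟨by linarith, ?_, by linarith, ?_⟩
      · rw [hJ]
        nlinarith
      · rw [hL']; linarith

end Pool.Agent.Helper92.PO
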